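import Pool.Agent.Lib.MP_b5021c_nt.IfaceOF

/-!
# Board b5, row OF_FC4: the face of four exponents is impossible (`Fc4S`)

The face is `v (1 - x₀x₃) - A (1 - x₀)(1 - x₁)(1 - x₂)(1 - x₃)`, `v = D₀ + A`.
-/

namespace Pool.Agent.B5.OF64

open scoped LaurentPolynomial
open Polynomial

/-- A cube root with positive real part. -/
theorem cube_root (w : ℂ) (hw : w ≠ 0) : ∃ s : ℂ, s ^ 3 = w ∧ 0 < s.re := by
  have h0 : 0 < ‖w‖ := norm_pos_iff.mpr hw
  refine ⟨((‖w‖ ^ ((1 : ℝ) / 3) : ℝ) : ℂ) * Complex.exp (((w.arg / 3 : ℝ) : ℂ) * Complex.I), ?_, ?_⟩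
  · rw [mul_pow, ← Complex.exp_nat_mul, ← Complex.ofReal_pow, ← Real.rpow_natCast,
      ← Real.rpow_mul h0.le]
    have h1 : (1 : ℝ) / 3 * ((3 : ℕ) : ℝ) = 1 := by norm_num
    have h2 : ((3 : ℕ) : ℂ) * (((w.arg / 3 : ℝ) : ℂ) * Complex.I) = (w.arg : ℂ) * Complex.I := by
      push_cast
      ring
    rw [h1, Real.rpow_one, h2, Complex.norm_mul_exp_arg_mul_I]
  · rw [Complex.re_ofReal_mul, Complex.exp_ofReal_mul_I_re]
    have h3 := Complex.neg_pi_lt_arg w
    have h4 := Complex.arg_le_pi w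
    have h5 := Real.pi_pos
    exact mul_pos (Real.rpow_pos_of_pos h0 _)
      (Real.cos_pos_of_mem_Ioo ⟨by linarith, by linarith⟩)

/-- The four variable inequality has no solution with `v a ≠ 0`. -/
theorem no_four (v a : ℂ) (hv : v ≠ 0) (ha : a ≠ 0)
    (h : ∀ x : Fin 4 → ℂ, (∀ i, ‖x i‖ < 1) →
      v * (1 - x 0 * x 3) ≠ a * ((1 - x 0) * (1 - x 1) * (1 - x 2) * (1 - x 3))) : False := by
  obtain ⟨s, hs, hre⟩ := cube_root (v / a) (div_ne_zero hv ha)
  have hs0 : s ≠ 0 := by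
    rintro rfl
    simp at hre
  have hn : 0 < Complex.normSq s := Complex.normSq_pos.mpr hs0
  set d : ℝ := s.re / Complex.normSq s with hd
  have hd0 : 0 < d := div_pos hre hn
  have hdn : d * Complex.normSq s = s.re := by
    rw [hd, div_mul_cancel₀ _ hn.ne']
  set W : ℂ := s / (d : ℂ) ^ 2 with hW
  have hdC : (d : ℂ) ≠ 0 := by exact_mod_cast hd0.ne'
  have hWre : 0 < W.re := by
    have h1 : W = ((d ^ 2)⁻¹ : ℝ) * s := by
      rw [hW]
      push_cast
      field_simp
    rw [h1, Complex.re_ofReal_mul]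
    positivity
  have hW1 : 1 + W ≠ 0 := by
    intro h1
    have h2 := congrArg Complex.re h1
    simp only [Complex.add_re, Complex.one_re, Complex.zero_re] at h2
    linarith
  have hx0 : ‖(1 - W) / (1 + W)‖ < 1 := by
    rw [norm_div, div_lt_one (norm_pos_iff.mpr hW1)]
    rw [← sq_lt_sq₀ (norm_nonneg _) (norm_nonneg _), ← Complex.normSq_eq_norm_sq,
      ← Complex.normSq_eq_norm_sq, Complex.normSq_apply, Complex.normSq_apply]
    simp only [Complex.sub_re, Complex.sub_im, Complex.add_re, Complex.add_im, Complex.one_re,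
      Complex.one_im]
    nlinarith
  have hx1 : ‖1 - (d : ℂ) * s‖ < 1 := by
    have h1 : ‖1 - (d : ℂ) * s‖ ^ 2 < 1 ^ 2 := by
      rw [← Complex.normSq_eq_norm_sq, Complex.normSq_apply]
      simp only [Complex.sub_re, Complex.sub_im, Complex.one_re, Complex.one_im,
        Complex.re_ofReal_mul, Complex.im_ofReal_mul]
      have h2 : d * (d * (s.re * s.re + s.im * s.im)) = d * s.re := by
        rw [← Complex.normSq_apply, hdn]
      nlinarith [mul_pos hd0 hre]
    exact (sq_lt_sq₀ (norm_nonneg _) zero_le_one).mp h1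
  refine h ![(1 - W) / (1 + W), 1 - (d : ℂ) * s, 1 - (d : ℂ) * s, (1 - W) / (1 + W)] ?_ ?_
  · intro i
    fin_cases i
    · exact hx0
    · exact hx1
    · exact hx1
    · exact hx0
  · have h0 : (![(1 - W) / (1 + W), 1 - (d : ℂ) * s, 1 - (d : ℂ) * s, (1 - W) / (1 + W)] :
        Fin 4 → ℂ) 0 = (1 - W) / (1 + W) := rfl
    have h1 : (![(1 - W) / (1 + W), 1 - (d : ℂ) * s, 1 - (d : ℂ) * s, (1 - W) / (1 + W)] :
        Fin 4 → ℂ) 1 = 1 - (d : ℂ) * s := rfl
    have h2 : (![(1 - W) / (1 + W), 1 - (d : ℂ) * s, 1 - (d : ℂ) * s, (1 - W) / (1 + W)] :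
        Fin 4 → ℂ) 2 = 1 - (d : ℂ) * s := rfl
    have h3 : (![(1 - W) / (1 + W), 1 - (d : ℂ) * s, 1 - (d : ℂ) * s, (1 - W) / (1 + W)] :
        Fin 4 → ℂ) 3 = (1 - W) / (1 + W) := rfl
    rw [h0, h1, h2, h3]
    have h4 : v = a * s ^ 3 := by
      rw [hs]
      field_simp
    have h5 : 1 - (1 - W) / (1 + W) * ((1 - W) / (1 + W)) = 4 * W / (1 + W) ^ 2 := by
      field_simp
      ring
    have h6 : 1 - (1 - W) / (1 + W) = 2 * W / (1 + W) := by
      field_simp
      ring
    have h7 : W * (d : ℂ) ^ 2 = s := by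
      rw [hW, div_mul_cancel₀ _ (pow_ne_zero 2 hdC)]
    rw [h4, h5, h6]
    have h8 : a * (2 * W / (1 + W) * (1 - (1 - (d : ℂ) * s)) * (1 - (1 - (d : ℂ) * s)) *
        (2 * W / (1 + W))) = a * (4 * W / (1 + W) ^ 2 * ((W * (d : ℂ) ^ 2) * s ^ 2)) := by
      field_simp
      ring
    rw [h8, h7]
    ring

/-- The sum over the subsets of `Fin 4`. -/
theorem sum_sets (f : Finset (Fin 4) → ℂ) (b a : ℂ) (x : Fin 4 → ℂ) (h0 : f ∅ = b)
    (h1 : f {0} = a * x 0) (h2 : f {3} = a * x 3) (h3 : f {0, 3} = -(b + 2 * a) * (x 0 * x 3))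
    (h : ∀ I : Finset (Fin 4), (1 ∈ I ∨ 2 ∈ I) → f I = (-1) ^ (I.card + 1) * a * ∏ i ∈ I, x i) :
    ∑ I : Finset (Fin 4), f I =
      (b + a) * (1 - x 0 * x 3) - a * ((1 - x 0) * (1 - x 1) * (1 - x 2) * (1 - x 3)) := by
  have hg : ∀ I : Finset (Fin 4), (-1) ^ (I.card + 1) * a * ∏ i ∈ I, x i =
      -a * ∏ i ∈ I, (-x i) := by
    intro I
    have h5 : ∏ i ∈ I, (-x i) = (-1) ^ I.card * ∏ i ∈ I, x i := by
      rw [← Finset.prod_const, ← Finset.prod_mul_distrib]
      exact Finset.prod_congr rfl fun i _ => by ring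
    rw [h5]
    ring
  have hG : ∑ I : Finset (Fin 4), -a * ∏ i ∈ I, (-x i) =
      -a * ((1 - x 0) * (1 - x 1) * (1 - x 2) * (1 - x 3)) := by
    rw [← Finset.mul_sum]
    have h6 := Finset.prod_one_add (s := (Finset.univ : Finset (Fin 4))) (f := fun i => -x i)
    rw [Finset.powerset_univ] at h6
    rw [← h6, Fin.prod_univ_four]
    ring
  have hd : ∑ I : Finset (Fin 4), (f I - -a * ∏ i ∈ I, (-x i)) =
      ∑ I ∈ ({∅, {0}, {3}, {0, 3}} : Finset (Finset (Fin 4))),
        (f I - -a * ∏ i ∈ I, (-x i)) := by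
    symm
    apply Finset.sum_subset (Finset.subset_univ _)
    intro I _ hI
    have h7 : 1 ∈ I ∨ 2 ∈ I := by
      revert hI
      revert I
      decide
    rw [h I h7, hg I, sub_self]
  have hs : ∑ I ∈ ({∅, {0}, {3}, {0, 3}} : Finset (Finset (Fin 4))),
      (f I - -a * ∏ i ∈ I, (-x i)) =
      (b + a) * (1 - x 0 * x 3) := by
    rw [Finset.sum_insert (by decide), Finset.sum_insert (by decide),
      Finset.sum_insert (by decide), Finset.sum_singleton, h0, h1, h2, h3]
    rw [Finset.prod_empty, Finset.prod_singleton, Finset.prod_singleton,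
      Finset.prod_pair (by decide)]
    ring
  rw [Finset.sum_sub_distrib, hG, hs] at hd
  linear_combination hd

/-- (OF_FC4) -/
theorem fc4_st (er : EvRS) (zf : ZfinS) (fcm : FcmS) : Fc4S := by
  intro O _ _ _ _ P L _ _ _ _ _ phi D E e A hD hL hB hE hdis h0 h3 h03 hI
  have hz : ∀ z : Circle, evR z ((D.coeff 0 + A) * A) = 0 := by
    intro z
    by_contra hne
    rw [map_mul] at hne
    have hv : evR z (D.coeff 0 + A) ≠ 0 := left_ne_zero_of_mul hne
    have ha : evR z A ≠ 0 := right_ne_zero_of_mul hne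
    refine no_four _ _ hv ha fun x hx hxe => ?_
    have hy : ∀ i, ‖evR z ((e i : (RO O)ˣ) : RO O) * x i‖ < 1 := fun i => by
      rw [norm_mul, (er O).2.1 z _ (e i).isUnit, one_mul]
      exact hx i
    have h1 := fcm O P L phi D 4 E hD hL hB hE hdis z
      (fun i => evR z ((e i : (RO O)ˣ) : RO O) * x i) hy
    apply h1
    have h2 : ∀ I : Finset (Fin 4), evR z (D.coeff (∑ i ∈ I, E i)) *
        ∏ i ∈ I, (evR z ((e i : (RO O)ˣ) : RO O) * x i) =
        evR z ((∏ i ∈ I, ((e i : (RO O)ˣ) : RO O)) * D.coeff (∑ i ∈ I, E i)) *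
          ∏ i ∈ I, x i := by
      intro I
      rw [Finset.prod_mul_distrib, map_mul, map_prod]
      ring
    rw [Finset.sum_congr rfl fun I _ => h2 I]
    rw [sum_sets (fun I => evR z ((∏ i ∈ I, ((e i : (RO O)ˣ) : RO O)) *
      D.coeff (∑ i ∈ I, E i)) * ∏ i ∈ I, x i) (evR z (D.coeff 0)) (evR z A) x]
    · rw [← map_add, hxe, sub_self]
    · simp
    · simp only [Finset.prod_singleton, Finset.sum_singleton]
      rw [h0]
    · simp only [Finset.prod_singleton, Finset.sum_singleton]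
      rw [h3]
    · have h4 : (0 : Fin 4) ≠ 3 := by decide
      simp only [Finset.prod_pair h4, Finset.sum_pair h4]
      rw [h03]
      simp only [map_neg, map_add, map_mul, map_ofNat]
    · intro I hI2
      rw [hI I hI2]
      simp only [map_mul, map_pow, map_neg, map_one]
  have h5 : (D.coeff 0 + A) * A = 0 := by
    by_contra hne
    have h6 := zf O _ hne
    have h7 : {z : Circle | evR z ((D.coeff 0 + A) * A) = 0} = Set.univ :=
      Set.eq_univ_of_forall hz
    rw [h7] at h6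
    have h8 : Infinite (Set.Ioc (-Real.pi) Real.pi) := by
      apply Set.Infinite.to_subtype
      apply Set.Ioc_infinite
      linarith [Real.pi_pos]
    have h9 : Infinite Circle := Infinite.of_injective _ Circle.argEquiv.symm.injective
    exact Set.infinite_univ h6
  exact mul_eq_zero.mp h5

end Pool.Agent.B5.OF64
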